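import Pool.Agent.N718.GC.Stm2

/-!
# Project GC (helper718): weak approximation for the equation `y² - a z² = N` (helper250)
-/

set_option autoImplicit false
set_option linter.all false

namespace Pool.Agent.N250.GC

open Finset Pool.Agent.N718.DC Pool.Agent.N718.GC

theorem near_aff {K : Type} [NormedField K] (v b : Fin 3 → K) (hv : v 2 = 1) (B δ : ℝ)
    (hB : 1 ≤ B) (hvB : ‖v‖ ≤ B) (hδ : 0 ≤ δ) (hBδ : B * δ ≤ 1 / 2) (h : Near δ v b) :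
    b 2 ≠ 0 ∧ ‖v 0 - b 0 / b 2‖ ≤ 4 * B ^ 2 * δ ∧ ‖v 1 - b 1 / b 2‖ ≤ 4 * B ^ 2 * δ := by
  obtain ⟨l, hl, hj⟩ := h
  have hj' : ∀ j, ‖v j - l * b j‖ ≤ B * δ := fun j =>
    (hj j).trans (mul_le_mul_of_nonneg_right hvB hδ)
  have h2 := hj' 2
  rw [hv] at h2
  have hlow : 1 / 2 ≤ ‖l * b 2‖ := by
    have h3 : ‖(1 : K)‖ ≤ ‖1 - l * b 2‖ + ‖l * b 2‖ := by
      have := norm_add_le (1 - l * b 2) (l * b 2)
      rwa [sub_add_cancel] at this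
    rw [norm_one] at h3
    linarith
  have hb2 : b 2 ≠ 0 := by
    rintro h0
    rw [h0, mul_zero, norm_zero] at hlow
    norm_num at hlow
  have hlb : l * b 2 ≠ 0 := mul_ne_zero hl hb2
  have key : ∀ j, ‖v j - b j / b 2‖ ≤ 4 * B ^ 2 * δ := by
    intro j
    have e1 : v j - b j / b 2 = (-(v j * (1 - l * b 2)) + (v j - l * b j)) / (l * b 2) := by
      field_simp
      ring
    have hn : ‖-(v j * (1 - l * b 2)) + (v j - l * b j)‖ ≤ B * (B * δ) + B * δ := by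
      refine (norm_add_le _ _).trans (add_le_add ?_ (hj' j))
      rw [norm_neg, norm_mul]
      exact mul_le_mul ((norm_le_pi_norm v j).trans hvB) h2 (norm_nonneg _) (by linarith)
    rw [e1, norm_div, div_le_iff₀ (by linarith)]
    have hBB : B * δ ≤ B ^ 2 * δ :=
      mul_le_mul_of_nonneg_right (by nlinarith) hδ
    have h5 : (4 * B ^ 2 * δ) * (1 / 2) ≤ 4 * B ^ 2 * δ * ‖l * b 2‖ :=
      mul_le_mul_of_nonneg_left hlow (by positivity)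
    nlinarith
  exact ⟨hb2, key 0, key 1⟩

theorem wfib_ (h : Pool.Agent.N718.DC.S_CWA) : S_WFIB := by
  intro a N ha hN hNm S Y Z YR ZR hp hR ε hε
  have hSol : Sol (1 : ℚ) (-(a : ℚ)) N := by
    obtain ⟨y, z, hyz⟩ := hNm
    refine ⟨y, z, 1, Or.inr (Or.inr one_ne_zero), ?_⟩
    rw [← hyz]; ring
  have haq : (-(a : ℚ)) ≠ 0 := neg_ne_zero.2 (by exact_mod_cast ha)
  set B : ℝ := 1 + ∑ p ∈ S, ‖(![Y p, Z p, 1] : Fin 3 → ℚ_[(p : ℕ)])‖ +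
    ‖(![YR, ZR, 1] : Fin 3 → ℝ)‖ with hB
  have hsum : 0 ≤ ∑ p ∈ S, ‖(![Y p, Z p, 1] : Fin 3 → ℚ_[(p : ℕ)])‖ :=
    Finset.sum_nonneg fun p _ => norm_nonneg _
  have hB1 : 1 ≤ B := by
    rw [hB]; linarith [norm_nonneg (![YR, ZR, 1] : Fin 3 → ℝ)]
  have hBR : ‖(![YR, ZR, 1] : Fin 3 → ℝ)‖ ≤ B := by
    rw [hB]; linarith
  have hBp : ∀ p ∈ S, ‖(![Y p, Z p, 1] : Fin 3 → ℚ_[(p : ℕ)])‖ ≤ B := by
    intro p hpS
    have := Finset.single_le_sum (f := fun p : Nat.Primes =>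
      ‖(![Y p, Z p, 1] : Fin 3 → ℚ_[(p : ℕ)])‖) (fun p _ => norm_nonneg _) hpS
    rw [hB]; linarith [norm_nonneg (![YR, ZR, 1] : Fin 3 → ℝ)]
  set δ : ℝ := min ε 1 / (4 * B ^ 2) with hδ
  have hB2 : 0 < 4 * B ^ 2 := by positivity
  have hδ0 : 0 < δ := div_pos (lt_min hε one_pos) hB2
  have hδε : 4 * B ^ 2 * δ ≤ ε := by
    rw [hδ, mul_div_cancel₀ _ hB2.ne']
    exact min_le_left _ _
  have hBδ : B * δ ≤ 1 / 2 := by
    have h1 : 4 * B ^ 2 * δ ≤ 1 := by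
      rw [hδ, mul_div_cancel₀ _ hB2.ne']
      exact min_le_right _ _
    nlinarith
  obtain ⟨z, hz, hzp, hzR⟩ := h 1 (-(a : ℚ)) N one_ne_zero haq hN hSol S
    (fun p => ![Y p, Z p, 1]) ![YR, ZR, 1]
    (fun p hpS => by
      refine ⟨fun h0 => ?_, ?_⟩
      · have := congrFun h0 2
        simp at this
      · have h1 := hp p hpS
        have e : (((-(a : ℚ)) : ℚ) : ℚ_[(p : ℕ)]) = -(a : ℚ_[(p : ℕ)]) := by push_cast; ring
        have e1 : (((1 : ℚ)) : ℚ_[(p : ℕ)]) = 1 := by push_cast; ring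
        show (((1 : ℚ)) : ℚ_[(p : ℕ)]) * (Y p) ^ 2 + (((-(a : ℚ)) : ℚ) : ℚ_[(p : ℕ)]) * (Z p) ^ 2 =
          (N : ℚ_[(p : ℕ)]) * 1 ^ 2
        rw [e, e1, ← h1]; ring)
    (by
      refine ⟨fun h0 => ?_, ?_⟩
      · have := congrFun h0 2
        simp at this
      · have e : (((-(a : ℚ)) : ℚ) : ℝ) = -(a : ℝ) := by push_cast; ring
        have e1 : (((1 : ℚ)) : ℝ) = 1 := by push_cast; ring
        show (((1 : ℚ)) : ℝ) * YR ^ 2 + (((-(a : ℚ)) : ℚ) : ℝ) * ZR ^ 2 = (N : ℝ) * 1 ^ 2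
        rw [e, e1, ← hR]; ring) δ hδ0
  obtain ⟨hr2, hr0, hr1⟩ := near_aff (![YR, ZR, 1] : Fin 3 → ℝ) (fun j => (z j : ℝ)) rfl B δ hB1
    hBR hδ0.le hBδ hzR
  have hz2 : z 2 ≠ 0 := by
    intro h0
    exact hr2 (by show ((z 2 : ℚ) : ℝ) = 0; rw [h0]; exact Rat.cast_zero)
  refine ⟨z 0 / z 2, z 1 / z 2, ?_, ?_, ?_, ?_⟩
  · have h1 := hz.2
    field_simp
    linarith
  · intro p hpS
    obtain ⟨_, h0, h1⟩ := near_aff (![Y p, Z p, 1] : Fin 3 → ℚ_[(p : ℕ)])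
      (fun j => (z j : ℚ_[(p : ℕ)])) rfl B δ hB1 (hBp p hpS) hδ0.le hBδ (hzp p hpS)
    rw [Rat.cast_div, Rat.cast_div]
    exact ⟨h0.trans hδε, h1.trans hδε⟩
  · rw [Rat.cast_div]
    exact (hr0.trans hδε)
  · rw [Rat.cast_div]
    exact (hr1.trans hδε)

end Pool.Agent.N250.GC
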